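import Mathlib
import Pool.Agent.V5helper30.OQ.Main
import Pool.Agent.TH69.OgF

set_option autoImplicit false

/-!
# Products of elements of order `p`

Let `w`, `t` be elements of order `p` which lie in `O_p(E)` for all finite soluble groups `E`
containing them. If an `r`-element `u` commutes with `w t` and `⟨w, u⟩`, `⟨t, u⟩` are finite and
soluble, then `w t = f f'` with elements `f`, `f'` of order `p` which commute with `u`.
-/

namespace Pool.Agent.V5helper30.OT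

open Pool.Agent.H32BU Pool.Agent.W629 Pool.Agent.TH69.Mtn Pool.Agent.TH69.Od Pool.Agent.TH69.Og

/-- replacing the factors of `w t` by elements commuting with `u` -/
theorem replace {G : Type} [Group G] {p : ℕ} (hp : p.Prime) {w t u : G} {r k : ℕ} (hr : r.Prime)
    (hrp : r ≠ p) (hu : u ^ r ^ k = 1) (hc : Commute u (w * t))
    (hK1 : Finite (c2 w u)) (hw : w ∈ Tw.RK p (c2 w u)) (ht : t ∈ Tw.RK p (c2 t u)) :
    ∃ f ∈ c2 w u, ∃ f' ∈ c2 t u, f ^ p = 1 ∧ f' ^ p = 1 ∧ f * f' = w * t ∧ Commute u f ∧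
      Commute u f' := by
  have huK1 : u ∈ c2 w u := Subgroup.subset_closure (by simp)
  have huK2 : u ∈ c2 t u := Subgroup.subset_closure (by simp)
  obtain ⟨D, hD⟩ : ∃ D, D = Tw.RK p (c2 w u) ⊓ Tw.RK p (c2 t u) := ⟨_, rfl⟩
  have hDle : D ≤ c2 w u := by
    rw [hD]
    exact inf_le_left.trans Tw.RK_le
  have hDf : Finite D := Finite.of_injective (Subgroup.inclusion hDle)
    (Subgroup.inclusion_injective _)
  have hDp : ∀ x ∈ D, x ^ p = 1 := by
    intro x hx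
    rw [hD] at hx
    exact Tw.RK_pow hx.1
  have hDc : ¬ r ∣ Nat.card D := not_dvd_card hr ((Nat.coprime_primes hr hp).2 hrp) hDf hDp
  have huD : ∀ d ∈ D, u * d * u⁻¹ ∈ D := by
    intro d hd
    rw [hD] at hd ⊢
    exact ⟨Tw.RK_conj hd.1 huK1, Tw.RK_conj hd.2 huK2⟩
  have hx : w⁻¹ * (u * w * u⁻¹) ∈ D := by
    rw [hD]
    refine ⟨Subgroup.mul_mem _ (Subgroup.inv_mem _ hw) (Tw.RK_conj hw huK1), ?_⟩
    have e : w⁻¹ * (u * w * u⁻¹) = t * (u * t⁻¹ * u⁻¹) := by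
      have h1 : u * (w * t) * u⁻¹ = w * t := by rw [hc.eq, mul_inv_cancel_right]
      calc w⁻¹ * (u * w * u⁻¹) = w⁻¹ * (u * (w * t) * u⁻¹) * (u * t⁻¹ * u⁻¹) := by group
        _ = t * (u * t⁻¹ * u⁻¹) := by rw [h1]; group
    rw [e]
    exact Subgroup.mul_mem _ ht (Tw.RK_conj (Subgroup.inv_mem _ ht) huK2)
  obtain ⟨d, hd, hdu⟩ := fixpt' hr hu D hDf hDc huD hx
  have hd1 : d ∈ Tw.RK p (c2 w u) := by rw [hD] at hd; exact hd.1
  have hd2 : d ∈ Tw.RK p (c2 t u) := by rw [hD] at hd; exact hd.2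
  have hf : w * d ∈ Tw.RK p (c2 w u) := mul_mem hw hd1
  have hf' : d⁻¹ * t ∈ Tw.RK p (c2 t u) := mul_mem (inv_mem hd2) ht
  have e : w * d * (d⁻¹ * t) = w * t := by group
  have hcf : Commute u (w * d) := hdu
  refine ⟨w * d, Tw.RK_le hf, d⁻¹ * t, Tw.RK_le hf', Tw.RK_pow hf, Tw.RK_pow hf', e, hcf, ?_⟩
  have e2 : d⁻¹ * t = (w * d)⁻¹ * (w * t) := by group
  rw [e2]
  exact hcf.inv_right.mul_right hc

/-- products of elements of order `p` -/
theorem core {G : Type} [Group G] {p M : ℕ} (hp : p.Prime) (hpM : Nat.Coprime p M) (hM0 : M ≠ 0)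
    (hexp : ∀ x : G, x ^ (p * M) = 1)
    (f1 : ∀ w u : G, w ^ p = 1 → ∀ r k : ℕ, r.Prime → r ≠ p → u ^ r ^ k = 1 → Commute (u ^ r) w →
      Finite (c2 w u) ∧ Group.IsSolvable (c2 w u))
    (f2 : ∀ w t : G, w ^ p = 1 → t ^ p = 1 → Commute ((w * t) ^ p) w →
      Finite (c2 w t) ∧ Group.IsSolvable (c2 w t))
    (hR : ∀ w : G, w ^ p = 1 → ∀ E : Subgroup G, Finite E → Group.IsSolvable E → w ∈ E →
      w ∈ Tw.RK p E) :
    ∀ d : ℕ, d ∣ M → ∀ (Z : Subgroup G) (w t : G), w ^ p = 1 → t ^ p = 1 →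
      (∀ z ∈ Z, Commute z w) → (∀ z ∈ Z, Commute z t) → ((w * t) ^ p) ^ d ∈ Z →
      (w * t) ^ p = 1 := by
  intro d
  induction d using Nat.strong_induction_on with
  | _ d ih =>
  intro hdM Z w t hw ht hZw hZt hd
  have hd0 : d ≠ 0 := by
    rintro rfl
    exact hM0 (Nat.eq_zero_of_zero_dvd hdM)
  by_cases hd1 : d = 1
  · subst hd1
    rw [pow_one] at hd
    obtain ⟨h1, h2⟩ := f2 w t hw ht (hZw _ hd)
    exact Tw.RK_mul (hR w hw _ h1 h2 (Subgroup.subset_closure (by simp)))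
      (Subgroup.subset_closure (by simp)) ht
  obtain ⟨r, hr, e, rfl⟩ := Nat.exists_prime_and_dvd hd1
  have hrM : r ∣ M := (dvd_mul_right _ _).trans hdM
  have hrp : r ≠ p := by
    rintro rfl
    exact (Nat.Prime.coprime_iff_not_dvd hp).1 hpM hrM
  have he0 : 0 < e := Nat.pos_of_ne_zero fun h => hd0 (by rw [h, mul_zero])
  have hlt : e < r * e := lt_mul_of_one_lt_left he0 hr.one_lt
  have hn0 : p * M ≠ 0 := Nat.mul_ne_zero hp.ne_zero hM0
  obtain ⟨k, hk1, hk2⟩ := qp_fac hn0 hr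
  have hrn : r ∣ p * M := hrM.trans (dvd_mul_left _ _)
  have hfac : 1 ≤ (p * M).factorization r := (hr.dvd_iff_one_le_factorization hn0).1 hrn
  obtain ⟨Q, hQ⟩ : ∃ Q, Q = qp r (p * M) := ⟨_, rfl⟩
  have hQr : Q = r ^ (p * M).factorization r := hQ
  have hrQ : r ∣ Q := by
    rw [hQr]
    exact dvd_pow_self r (by omega)
  have hQk : Nat.Coprime Q k := by
    rw [hQr]
    exact Nat.Coprime.pow_left _ hk1
  rw [← hQ] at hk2
  obtain ⟨a, b, ha, hb, -, -, hab⟩ := crt hQk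
  obtain ⟨u0, hu0⟩ : ∃ u0, u0 = ((w * t) ^ p) ^ e := ⟨_, rfl⟩
  have hu0r : u0 ^ r ∈ Z := by
    rw [hu0, ← pow_mul, mul_comm e r]
    exact hd
  obtain ⟨u, hu⟩ : ∃ u, u = u0 ^ b := ⟨_, rfl⟩
  have huQ : u ^ r ^ (p * M).factorization r = 1 := by
    obtain ⟨b', rfl⟩ := hb
    rw [← hQr, hu, ← pow_mul, show k * b' * Q = (Q * k) * b' from by ring, hk2, pow_mul, hexp,
      one_pow]
  have hur : u ^ r ∈ Z := by
    rw [hu, ← pow_mul, mul_comm b r, pow_mul]
    exact pow_mem hu0r b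
  have huv : u0 ^ a * u = u0 := by
    rw [hu]
    exact hab u0 (by rw [hk2]; exact hexp _)
  have hv : u0 ^ a ∈ Z := by
    obtain ⟨a', rfl⟩ := hrQ.trans ha
    rw [pow_mul]
    exact pow_mem hu0r a'
  have hcu : Commute u (w * t) := by
    rw [hu, hu0]
    exact (((Commute.refl (w * t)).pow_left p).pow_left e).pow_left b
  obtain ⟨hA1, hA2⟩ := f1 w u hw r _ hr hrp huQ (hZw _ hur)
  obtain ⟨hB1, hB2⟩ := f1 t u ht r _ hr hrp huQ (hZt _ hur)
  obtain ⟨f, hf, f', hf', hfp, hfp', hff, hcf, hcf'⟩ := replace hp hr hrp huQ hcu hA1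
    (hR w hw _ hA1 hA2 (Subgroup.subset_closure (by simp)))
    (hR t ht _ hB1 hB2 (Subgroup.subset_closure (by simp)))
  have hZu : ∀ z ∈ Z, Commute z u := by
    intro z hz
    rw [hu, hu0]
    exact ((((hZw z hz).mul_right (hZt z hz)).pow_right p).pow_right e).pow_right b
  have hcl : ∀ z x y : G, Commute z x → Commute z y → ∀ g ∈ c2 x y, Commute z g := by
    intro z x y hx hy g hg
    have h1 : c2 x y ≤ Subgroup.centralizer {z} := by
      unfold c2
      rw [Subgroup.closure_le]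
      rintro a (rfl | ha)
      · exact Subgroup.mem_centralizer_singleton_iff.2 hx.symm.eq
      · rw [Set.mem_singleton_iff.1 ha]
        exact Subgroup.mem_centralizer_singleton_iff.2 hy.symm.eq
    exact (Tw.mem_cent.1 (h1 hg)).symm
  have h1 : ∀ g : G, Commute u g → (∀ z ∈ Z, Commute z g) → ∀ z ∈ Z ⊔ Subgroup.zpowers u,
      Commute z g := by
    intro g hug hZg
    have h2 : Z ⊔ Subgroup.zpowers u ≤ Subgroup.centralizer {g} := by
      refine sup_le (fun z hz => Tw.mem_cent.2 (hZg z hz)) ?_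
      rw [Subgroup.zpowers_le]
      exact Tw.mem_cent.2 hug
    intro z hz
    exact Tw.mem_cent.1 (h2 hz)
  have h2 := ih e hlt ((dvd_mul_left _ _).trans hdM) (Z ⊔ Subgroup.zpowers u) f f' hfp hfp'
    (h1 f hcf fun z hz => hcl z w u (hZw z hz) (hZu z hz) f hf)
    (h1 f' hcf' fun z hz => hcl z t u (hZt z hz) (hZu z hz) f' hf') (by
      rw [hff, ← hu0, ← huv]
      exact mul_mem (Subgroup.mem_sup_left hv)
        (Subgroup.mem_sup_right (Subgroup.mem_zpowers u)))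
  rw [hff] at h2
  exact h2

end Pool.Agent.V5helper30.OT
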