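import Mathlib

set_option autoImplicit false

/-!
# Groups generated by two elements of order three with `(x y) ^ 3` central
-/

namespace Pool.Agent.V5helper30.OT

/-- soluble by commutative -/
theorem solv_ext {K : Type*} [Group K] (N : Subgroup K) [N.Normal] (hN : Group.IsSolvable N)
    (h : ∀ g k : K, g * k * g⁻¹ * k⁻¹ ∈ N) : Group.IsSolvable K := by
  have h1 : Group.IsSolvable (K ⧸ N) := by
    refine Group.isSolvable_of_comm fun a b => ?_
    obtain ⟨a, rfl⟩ := QuotientGroup.mk_surjective a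
    obtain ⟨b, rfl⟩ := QuotientGroup.mk_surjective b
    have h2 := (QuotientGroup.eq_one_iff (N := N) (a * b * a⁻¹ * b⁻¹)).2 (h a b)
    have h3 : (a : K ⧸ N) * b * (a : K ⧸ N)⁻¹ * (b : K ⧸ N)⁻¹ = 1 := h2
    rw [mul_inv_eq_one, mul_inv_eq_iff_eq_mul] at h3
    exact h3
  refine Group.isSolvable_of_ker_le_range N.subtype (QuotientGroup.mk' N) ?_
  rw [QuotientGroup.ker_mk', Subgroup.range_subtype]

theorem euc {K : Type*} [Group K] {x y : K} {n : ℕ} (hn : 0 < n) (hK : ∀ g : K, g ^ n = 1)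
    (hgen : (⊤ : Subgroup K) = Subgroup.closure {x, y}) (hx : x ^ 3 = 1) (hy : y ^ 3 = 1)
    (hz : Commute ((x * y) ^ 3) x) : Finite K ∧ Group.IsSolvable K := by
  obtain ⟨z, hzd⟩ : ∃ z, z = (x * y) ^ 3 := ⟨_, rfl⟩
  rw [← hzd] at hz
  have hzxy : Commute z (x * y) := by
    rw [hzd]
    exact (Commute.refl (x * y)).pow_left 3
  have hzy : Commute z y := by
    have h1 := hz.inv_right.mul_right hzxy
    rwa [inv_mul_cancel_left] at h1
  have hx2 : x⁻¹ = x * x := by
    rw [inv_eq_iff_mul_eq_one, ← mul_assoc]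
    rw [pow_succ, pow_two] at hx
    exact hx
  have hy2 : y⁻¹ = y * y := by
    rw [inv_eq_iff_mul_eq_one, ← mul_assoc]
    rw [pow_succ, pow_two] at hy
    exact hy
  obtain ⟨a, ha⟩ : ∃ a, a = x * y⁻¹ := ⟨_, rfl⟩
  obtain ⟨b, hb⟩ : ∃ b, b = y⁻¹ * x := ⟨_, rfl⟩
  have hza : Commute z a := by rw [ha]; exact hz.mul_right hzy.inv_right
  have hzb : Commute z b := by rw [hb]; exact hzy.inv_right.mul_right hz
  -- relations
  have hab : a * b = x * y * x := by
    have h1 : y⁻¹ * y⁻¹ = y := by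
      rw [hy2]
      have : y * y * (y * y) = y ^ 3 * y := by
        rw [pow_succ, pow_two]
        simp only [mul_assoc]
      rw [this, hy, one_mul]
    rw [ha, hb]
    calc x * y⁻¹ * (y⁻¹ * x) = x * (y⁻¹ * y⁻¹) * x := by simp only [mul_assoc]
      _ = x * y * x := by rw [h1]
  have hba : b * a = (y * x * y)⁻¹ := by
    have h1 : x * x = x⁻¹ := hx2.symm
    rw [ha, hb]
    calc y⁻¹ * x * (x * y⁻¹) = y⁻¹ * (x * x) * y⁻¹ := by simp only [mul_assoc]
      _ = (y * x * y)⁻¹ := by rw [h1]; group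
  have hrel : a * b = z * (b * a) := by
    rw [hab, hba, hzd, eq_mul_inv_iff_mul_eq, pow_succ, pow_two]
    simp only [mul_assoc]
  have hbx : x * b * x⁻¹ = a := by rw [hb, ha]; group
  have hax : x * a * x⁻¹ = b⁻¹ * a⁻¹ := by
    rw [← mul_inv_rev, hab, ha]
    have h1 : x * x = x⁻¹ := hx2.symm
    calc x * (x * y⁻¹) * x⁻¹ = (x * x) * y⁻¹ * x⁻¹ := by simp only [mul_assoc]
      _ = (x * y * x)⁻¹ := by rw [h1]; group
  have hbab : b * a * b⁻¹ = z⁻¹ * a := by
    have h1 : b * a = z⁻¹ * (a * b) := by rw [hrel, inv_mul_cancel_left]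
    rw [h1]
    group
  have hcomm : ∀ k j : ℤ, b ^ k * a ^ j = z ^ (-(k * j)) * (a ^ j * b ^ k) := by
    intro k j
    have h1 : ∀ k : ℤ, b ^ k * a * (b ^ k)⁻¹ = z ^ (-k) * a := by
      intro k
      induction k using Int.induction_on with
      | zero => simp
      | succ i ih =>
        have e : b ^ ((i : ℤ) + 1) * a * (b ^ ((i : ℤ) + 1))⁻¹ =
            b * (b ^ (i : ℤ) * a * (b ^ (i : ℤ))⁻¹) * b⁻¹ := by
          rw [add_comm, zpow_add, zpow_one]
          group
        rw [e, ih]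
        have h2 : b * (z ^ (-(i : ℤ)) * a) * b⁻¹ = z ^ (-(i : ℤ)) * (b * a * b⁻¹) := by
          have h3 := (hzb.zpow_left (-(i : ℤ))).eq
          calc b * (z ^ (-(i : ℤ)) * a) * b⁻¹ = (b * z ^ (-(i : ℤ))) * a * b⁻¹ := by
                simp only [mul_assoc]
            _ = (z ^ (-(i : ℤ)) * b) * a * b⁻¹ := by rw [h3]
            _ = z ^ (-(i : ℤ)) * (b * a * b⁻¹) := by simp only [mul_assoc]
        rw [h2, hbab, ← mul_assoc, ← zpow_neg_one z, ← zpow_add]
        congr 2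
        ring
      | pred i ih =>
        have hb' : b⁻¹ * a * b = z * a := by
          have h3 : a = b⁻¹ * (z⁻¹ * a) * b := by rw [← hbab]; group
          have h4 : b⁻¹ * (z⁻¹ * a) * b = z⁻¹ * (b⁻¹ * a * b) := by
            have h5 := hzb.inv_left.inv_right.eq
            calc b⁻¹ * (z⁻¹ * a) * b = (b⁻¹ * z⁻¹) * a * b := by simp only [mul_assoc]
              _ = (z⁻¹ * b⁻¹) * a * b := by rw [h5]
              _ = z⁻¹ * (b⁻¹ * a * b) := by simp only [mul_assoc]
          rw [h4] at h3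
          rw [← eq_inv_mul_iff_mul_eq.1 h3.symm.symm]
        have e : b ^ (-(i : ℤ) - 1) * a * (b ^ (-(i : ℤ) - 1))⁻¹ =
            b⁻¹ * (b ^ (-(i : ℤ)) * a * (b ^ (-(i : ℤ)))⁻¹) * b := by
          rw [sub_eq_add_neg, add_comm, zpow_add, zpow_neg_one]
          group
        rw [e, ih]
        have h2 : b⁻¹ * (z ^ (-(-(i : ℤ))) * a) * b = z ^ (-(-(i : ℤ))) * (b⁻¹ * a * b) := by
          have h3 := (hzb.inv_right.zpow_left (-(-(i : ℤ)))).eq
          calc b⁻¹ * (z ^ (-(-(i : ℤ))) * a) * b = (b⁻¹ * z ^ (-(-(i : ℤ)))) * a * b := by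
                simp only [mul_assoc]
            _ = (z ^ (-(-(i : ℤ))) * b⁻¹) * a * b := by rw [h3]
            _ = z ^ (-(-(i : ℤ))) * (b⁻¹ * a * b) := by simp only [mul_assoc]
        rw [h2, hb', ← mul_assoc]
        nth_rewrite 2 [← zpow_one z]
        rw [← zpow_add]
        congr 2
        ring
    have h2 : b ^ k * a ^ j * (b ^ k)⁻¹ = z ^ (-(k * j)) * a ^ j := by
      rw [← conj_zpow, h1, (hza.zpow_left (-k)).mul_zpow, ← zpow_mul]
      congr 2
      ring
    rw [← mul_assoc, ← h2]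
    group
  -- the subgroup
  let T : Subgroup K :=
    { carrier := {g | ∃ i j k : ℤ, g = z ^ i * (a ^ j * b ^ k)}
      one_mem' := ⟨0, 0, 0, by simp⟩
      mul_mem' := by
        rintro g g' ⟨i, j, k, rfl⟩ ⟨i', j', k', rfl⟩
        refine ⟨i + i' - k * j', j + j', k + k', ?_⟩
        have h1 : Commute (z ^ i') (a ^ j * b ^ k) :=
          ((hza.zpow_zpow i' j).mul_right (hzb.zpow_zpow i' k))
        have h2 : Commute (z ^ (-(k * j'))) (a ^ j) := hza.zpow_zpow _ _
        calc z ^ i * (a ^ j * b ^ k) * (z ^ i' * (a ^ j' * b ^ k'))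
            = z ^ i * ((a ^ j * b ^ k) * z ^ i') * (a ^ j' * b ^ k') := by simp only [mul_assoc]
          _ = z ^ i * (z ^ i' * (a ^ j * b ^ k)) * (a ^ j' * b ^ k') := by rw [h1.eq]
          _ = z ^ i * z ^ i' * a ^ j * (b ^ k * a ^ j') * b ^ k' := by simp only [mul_assoc]
          _ = z ^ i * z ^ i' * a ^ j * (z ^ (-(k * j')) * (a ^ j' * b ^ k)) * b ^ k' := by
              rw [hcomm]
          _ = z ^ i * z ^ i' * (a ^ j * z ^ (-(k * j'))) * (a ^ j' * b ^ k) * b ^ k' := by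
              simp only [mul_assoc]
          _ = z ^ i * z ^ i' * (z ^ (-(k * j')) * a ^ j) * (a ^ j' * b ^ k) * b ^ k' := by
              rw [h2.eq]
          _ = (z ^ i * z ^ i' * z ^ (-(k * j'))) * ((a ^ j * a ^ j') * (b ^ k * b ^ k')) := by
              simp only [mul_assoc]
          _ = z ^ (i + i' - k * j') * (a ^ (j + j') * b ^ (k + k')) := by
              rw [← zpow_add, ← zpow_add, ← zpow_add, ← zpow_add]
              rfl
      inv_mem' := by
        rintro g ⟨i, j, k, rfl⟩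
        refine ⟨-i - k * j, -j, -k, ?_⟩
        have h1 : Commute (z ^ (-i)) (a ^ (-j) * b ^ (-k)) :=
          ((hza.zpow_zpow (-i) (-j)).mul_right (hzb.zpow_zpow (-i) (-k)))
        rw [mul_inv_rev, mul_inv_rev, ← zpow_neg, ← zpow_neg, ← zpow_neg, hcomm, mul_assoc,
          ← h1.eq, ← mul_assoc, ← zpow_add]
        congr 2
        ring }
  have haT : a ∈ T := ⟨0, 1, 0, by simp⟩
  have hbT : b ∈ T := ⟨0, 0, 1, by simp⟩
  have hzT : z ∈ T := ⟨1, 0, 0, by simp⟩
  have hTfin : (T : Set K).Finite := by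
    have hfin : ∀ g : K, ((Subgroup.zpowers g : Subgroup K) : Set K).Finite := by
      intro g
      exact finite_zpowers.2 (isOfFinOrder_iff_pow_eq_one.2 ⟨n, hn, hK g⟩)
    refine ((hfin z).mul ((hfin a).mul (hfin b))).subset ?_
    rintro g ⟨i, j, k, rfl⟩
    exact Set.mul_mem_mul ⟨i, rfl⟩ (Set.mul_mem_mul ⟨j, rfl⟩ ⟨k, rfl⟩)
  have hxT : ∀ g ∈ T, x * g * x⁻¹ ∈ T := by
    rintro g ⟨i, j, k, rfl⟩
    have e : x * (z ^ i * (a ^ j * b ^ k)) * x⁻¹ =
        (x * z ^ i * x⁻¹) * ((x * a ^ j * x⁻¹) * (x * b ^ k * x⁻¹)) := by group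
    have h1 : x * z ^ i * x⁻¹ = z ^ i := by
      rw [← (hz.zpow_left i).eq, mul_inv_cancel_right]
    rw [e, h1, ← conj_zpow, ← conj_zpow, hax, hbx]
    exact T.mul_mem (T.zpow_mem hzT i) (T.mul_mem (T.zpow_mem (T.mul_mem (T.inv_mem hbT)
      (T.inv_mem haT)) j) (T.zpow_mem haT k))
  have hxT' : ∀ g ∈ T, x⁻¹ * g * x ∈ T := by
    intro g hg
    have h1 := hxT _ (hxT _ hg)
    have e : x * (x * g * x⁻¹) * x⁻¹ = (x * x) * g * (x * x)⁻¹ := by group
    rw [e, ← hx2, inv_inv] at h1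
    exact h1
  have hyx : y = a⁻¹ * x := by rw [ha]; group
  -- all elements are in `T ⟨x⟩`
  have hall : ∀ g : K, ∃ t ∈ T, ∃ l : ℤ, g = t * x ^ l := by
    intro g
    have hg : g ∈ Subgroup.closure {x, y} := by rw [← hgen]; exact Subgroup.mem_top g
    have hxl : ∀ (l : ℤ), ∀ t ∈ T, x ^ l * t * (x ^ l)⁻¹ ∈ T := by
      intro l
      induction l using Int.induction_on with
      | zero => intro t ht; simpa using ht
      | succ i ih =>
        intro t ht
        have e : x ^ ((i : ℤ) + 1) * t * (x ^ ((i : ℤ) + 1))⁻¹ =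
            x * (x ^ (i : ℤ) * t * (x ^ (i : ℤ))⁻¹) * x⁻¹ := by
          rw [add_comm, zpow_add, zpow_one]
          group
        rw [e]
        exact hxT _ (ih t ht)
      | pred i ih =>
        intro t ht
        have e : x ^ (-(i : ℤ) - 1) * t * (x ^ (-(i : ℤ) - 1))⁻¹ =
            x⁻¹ * (x ^ (-(i : ℤ)) * t * (x ^ (-(i : ℤ)))⁻¹) * x := by
          rw [sub_eq_add_neg, add_comm, zpow_add, zpow_neg_one]
          group
        rw [e]
        exact hxT' _ (ih t ht)
    induction hg using Subgroup.closure_induction with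
    | mem g hg =>
      rcases hg with rfl | hg
      · exact ⟨1, one_mem _, 1, by simp⟩
      · rw [Set.mem_singleton_iff.1 hg, hyx]
        exact ⟨a⁻¹, T.inv_mem haT, 1, by simp⟩
    | one => exact ⟨1, one_mem _, 0, by simp⟩
    | mul g g' _ _ h h' =>
      obtain ⟨t, ht, l, rfl⟩ := h
      obtain ⟨t', ht', l', rfl⟩ := h'
      refine ⟨t * (x ^ l * t' * (x ^ l)⁻¹), T.mul_mem ht (hxl l t' ht'), l + l', ?_⟩
      rw [zpow_add]
      group
    | inv g _ h =>
      obtain ⟨t, ht, l, rfl⟩ := h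
      refine ⟨x ^ (-l) * t⁻¹ * (x ^ (-l))⁻¹, hxl _ _ (T.inv_mem ht), -l, ?_⟩
      group
  have hTn : T.Normal := by
    refine ⟨fun t ht g => ?_⟩
    obtain ⟨s, hs, l, rfl⟩ := hall g
    have hxl : ∀ (l : ℤ), ∀ t ∈ T, x ^ l * t * (x ^ l)⁻¹ ∈ T := by
      intro l
      induction l using Int.induction_on with
      | zero => intro t ht; simpa using ht
      | succ i ih =>
        intro t ht
        have e : x ^ ((i : ℤ) + 1) * t * (x ^ ((i : ℤ) + 1))⁻¹ =
            x * (x ^ (i : ℤ) * t * (x ^ (i : ℤ))⁻¹) * x⁻¹ := by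
          rw [add_comm, zpow_add, zpow_one]
          group
        rw [e]
        exact hxT _ (ih t ht)
      | pred i ih =>
        intro t ht
        have e : x ^ (-(i : ℤ) - 1) * t * (x ^ (-(i : ℤ) - 1))⁻¹ =
            x⁻¹ * (x ^ (-(i : ℤ)) * t * (x ^ (-(i : ℤ)))⁻¹) * x := by
          rw [sub_eq_add_neg, add_comm, zpow_add, zpow_neg_one]
          group
        rw [e]
        exact hxT' _ (ih t ht)
    have e : s * x ^ l * t * (s * x ^ l)⁻¹ = s * (x ^ l * t * (x ^ l)⁻¹) * s⁻¹ := by group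
    rw [e]
    exact T.mul_mem (T.mul_mem hs (hxl l t ht)) (T.inv_mem hs)
  refine ⟨?_, ?_⟩
  · have h1 : ((Subgroup.zpowers x : Subgroup K) : Set K).Finite :=
      finite_zpowers.2 (isOfFinOrder_iff_pow_eq_one.2 ⟨n, hn, hK x⟩)
    have h2 : (Set.univ : Set K).Finite := by
      refine (hTfin.mul h1).subset ?_
      intro g _
      obtain ⟨t, ht, l, rfl⟩ := hall g
      exact Set.mul_mem_mul ht ⟨l, rfl⟩
    exact Set.finite_univ_iff.1 h2
  · have hTs : Group.IsSolvable T := by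
      obtain ⟨Z, hZ⟩ : ∃ Z : Subgroup T, Z = (Subgroup.zpowers z).subgroupOf T := ⟨_, rfl⟩
      have hzc : ∀ t ∈ T, Commute z t := by
        rintro t ⟨i, j, k, rfl⟩
        exact ((Commute.refl z).zpow_right i).mul_right
          ((hza.zpow_right j).mul_right (hzb.zpow_right k))
      have hZm : ∀ t : T, t ∈ Z ↔ ∃ i : ℤ, z ^ i = (t : K) := by
        intro t
        rw [hZ, Subgroup.mem_subgroupOf, Subgroup.mem_zpowers_iff]
      have hZn : Z.Normal := by
        refine ⟨fun t ht g => ?_⟩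
        rw [hZm] at ht ⊢
        obtain ⟨i, hi⟩ := ht
        refine ⟨i, ?_⟩
        have h1 := ((hzc g g.2).zpow_left i).eq
        change z ^ i = (g : K) * (t : K) * (g : K)⁻¹
        rw [← hi, ← h1, mul_inv_cancel_right]
      have hZs : Group.IsSolvable Z := by
        refine Group.isSolvable_of_comm fun s t => ?_
        obtain ⟨i, hi⟩ := (hZm s).1 s.2
        obtain ⟨j, hj⟩ := (hZm t).1 t.2
        apply Subtype.ext
        apply Subtype.ext
        change ((s : T) : K) * ((t : T) : K) = ((t : T) : K) * ((s : T) : K)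
        rw [← hi, ← hj, ← zpow_add, ← zpow_add, add_comm]
      refine solv_ext Z hZs ?_
      rintro ⟨g, i, j, k, rfl⟩ ⟨g', i', j', k', rfl⟩
      rw [hZm]
      refine ⟨-(k * j') + k' * j, ?_⟩
      change z ^ (-(k * j') + k' * j) = z ^ i * (a ^ j * b ^ k) * (z ^ i' * (a ^ j' * b ^ k')) *
        (z ^ i * (a ^ j * b ^ k))⁻¹ * (z ^ i' * (a ^ j' * b ^ k'))⁻¹
      rw [eq_mul_inv_iff_mul_eq, eq_mul_inv_iff_mul_eq]
      have h1 : Commute (z ^ i') (a ^ j * b ^ k) :=
        ((hza.zpow_zpow i' j).mul_right (hzb.zpow_zpow i' k))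
      have h2 : Commute (z ^ i) (a ^ j' * b ^ k') :=
        ((hza.zpow_zpow i j').mul_right (hzb.zpow_zpow i k'))
      have h3 : ∀ c : ℤ, Commute (z ^ c) (a ^ j) := fun c => hza.zpow_zpow _ _
      have h3' : ∀ c : ℤ, Commute (z ^ c) (a ^ j') := fun c => hza.zpow_zpow _ _
      have e1 : z ^ i * (a ^ j * b ^ k) * (z ^ i' * (a ^ j' * b ^ k')) =
          z ^ (i + i' - k * j') * ((a ^ j * a ^ j') * (b ^ k * b ^ k')) := by
        calc z ^ i * (a ^ j * b ^ k) * (z ^ i' * (a ^ j' * b ^ k'))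
            = z ^ i * ((a ^ j * b ^ k) * z ^ i') * (a ^ j' * b ^ k') := by simp only [mul_assoc]
          _ = z ^ i * (z ^ i' * (a ^ j * b ^ k)) * (a ^ j' * b ^ k') := by rw [h1.eq]
          _ = z ^ i * z ^ i' * a ^ j * (b ^ k * a ^ j') * b ^ k' := by simp only [mul_assoc]
          _ = z ^ i * z ^ i' * a ^ j * (z ^ (-(k * j')) * (a ^ j' * b ^ k)) * b ^ k' := by
              rw [hcomm]
          _ = z ^ i * z ^ i' * (a ^ j * z ^ (-(k * j'))) * (a ^ j' * b ^ k) * b ^ k' := by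
              simp only [mul_assoc]
          _ = z ^ i * z ^ i' * (z ^ (-(k * j')) * a ^ j) * (a ^ j' * b ^ k) * b ^ k' := by
              rw [(h3 _).eq]
          _ = (z ^ i * z ^ i' * z ^ (-(k * j'))) * ((a ^ j * a ^ j') * (b ^ k * b ^ k')) := by
              simp only [mul_assoc]
          _ = z ^ (i + i' - k * j') * ((a ^ j * a ^ j') * (b ^ k * b ^ k')) := by
              rw [← zpow_add, ← zpow_add]
              rfl
      have e2 : z ^ i' * (a ^ j' * b ^ k') * (z ^ i * (a ^ j * b ^ k)) =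
          z ^ (i' + i - k' * j) * ((a ^ j' * a ^ j) * (b ^ k' * b ^ k)) := by
        calc z ^ i' * (a ^ j' * b ^ k') * (z ^ i * (a ^ j * b ^ k))
            = z ^ i' * ((a ^ j' * b ^ k') * z ^ i) * (a ^ j * b ^ k) := by simp only [mul_assoc]
          _ = z ^ i' * (z ^ i * (a ^ j' * b ^ k')) * (a ^ j * b ^ k) := by rw [h2.eq]
          _ = z ^ i' * z ^ i * a ^ j' * (b ^ k' * a ^ j) * b ^ k := by simp only [mul_assoc]
          _ = z ^ i' * z ^ i * a ^ j' * (z ^ (-(k' * j)) * (a ^ j * b ^ k')) * b ^ k := by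
              rw [hcomm]
          _ = z ^ i' * z ^ i * (a ^ j' * z ^ (-(k' * j))) * (a ^ j * b ^ k') * b ^ k := by
              simp only [mul_assoc]
          _ = z ^ i' * z ^ i * (z ^ (-(k' * j)) * a ^ j') * (a ^ j * b ^ k') * b ^ k := by
              rw [(h3' _).eq]
          _ = (z ^ i' * z ^ i * z ^ (-(k' * j))) * ((a ^ j' * a ^ j) * (b ^ k' * b ^ k)) := by
              simp only [mul_assoc]
          _ = z ^ (i' + i - k' * j) * ((a ^ j' * a ^ j) * (b ^ k' * b ^ k)) := by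
              rw [← zpow_add, ← zpow_add]
              rfl
      have e3 : z ^ (-(k * j') + k' * j) * (z ^ i' * (a ^ j' * b ^ k')) *
          (z ^ i * (a ^ j * b ^ k)) =
          z ^ (-(k * j') + k' * j) * (z ^ i' * (a ^ j' * b ^ k') * (z ^ i * (a ^ j * b ^ k))) := by
        simp only [mul_assoc]
      rw [e3, e1, e2, ← mul_assoc, ← zpow_add, ← zpow_add a, ← zpow_add b, ← zpow_add a,
        ← zpow_add b, add_comm j' j, add_comm k' k]
      congr 2
      ring
    refine solv_ext T hTs ?_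
    intro g g'
    obtain ⟨t, ht, l, rfl⟩ := hall g
    obtain ⟨t', ht', l', rfl⟩ := hall g'
    have e : t * x ^ l * (t' * x ^ l') * (t * x ^ l)⁻¹ * (t' * x ^ l')⁻¹ =
        t * (x ^ l * t' * (x ^ l)⁻¹) * (x ^ l' * t⁻¹ * (x ^ l')⁻¹) * t'⁻¹ := by
      have h1 : x ^ l * x ^ l' = x ^ l' * x ^ l := by rw [← zpow_add, ← zpow_add, add_comm]
      have h2 : t * x ^ l * (t' * x ^ l') * (t * x ^ l)⁻¹ * (t' * x ^ l')⁻¹ =
          t * (x ^ l * t' * (x ^ l)⁻¹) * (x ^ l * x ^ l' * (x ^ l)⁻¹) * t⁻¹ * (x ^ l')⁻¹ *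
            t'⁻¹ := by group
      rw [h2, h1]
      group
    rw [e]
    exact T.mul_mem (T.mul_mem (T.mul_mem ht (hTn.conj_mem _ ht' _))
      (hTn.conj_mem _ (T.inv_mem ht) _)) (T.inv_mem ht')

end Pool.Agent.V5helper30.OT
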