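import Mathlib
import Pool.Agent.V5helper30.OT.Core
import Pool.Agent.V5helper30.OT.Euc

set_option autoImplicit false

/-!
# Primes dividing the exponent once: groups without normal subgroups of prime power exponent
-/

namespace Pool.Agent.V5helper30.OT

open Pool.Agent.H32BU Pool.Agent.W629 Pool.Agent.TH69.Mtn Pool.Agent.TH69.Od Pool.Agent.TH69.Og
open Pool.Agent.TH69.Oh Pool.Agent.TH69.Ok Pool.Agent.TH69.Pq Pool.Agent.N6.Pf
open Pool.Agent.V5helper30.OQ

universe u

/-- two elements of order three -/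
theorem three {G : Type u} [Group G] {n : ℕ} (hn : 0 < n) (hG : ∀ g : G, g ^ n = 1) {x y : G}
    (hx : x ^ 3 = 1) (hy : y ^ 3 = 1) (hz : Commute ((x * y) ^ 3) x) :
    Finite (Subgroup.closure {x, y}) ∧ Group.IsSolvable (Subgroup.closure {x, y}) := by
  have hxm : x ∈ Subgroup.closure {x, y} := Subgroup.subset_closure (by simp)
  have hym : y ∈ Subgroup.closure {x, y} := Subgroup.subset_closure (by simp)
  refine euc (K := Subgroup.closure {x, y}) (x := ⟨x, hxm⟩) (y := ⟨y, hym⟩) hn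
    (fun g => Subtype.ext (hG g)) ?_ (Subtype.ext hx) (Subtype.ext hy) (Subtype.ext hz.eq)
  apply Subgroup.map_injective (Subgroup.closure {x, y}).subtype_injective
  rw [← MonoidHom.range_eq_map, Subgroup.range_subtype, MonoidHom.map_closure, Set.image_pair]
  rfl

/-- the hypotheses on the group -/
structure St (p M : ℕ) (G : Type) [Group G] : Prop where
  hp : p.Prime
  hpM : Nat.Coprime p M
  odd : ¬ 2 ∣ p * M
  exp : ∀ x : G, x ^ (p * M) = 1
  f1 : ∀ x y : G, PO p y → Finite (c2 x y) ∧ Group.IsSolvable (c2 x y)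
  f1c : ∀ w u : G, w ^ p = 1 → ∀ r k : ℕ, r.Prime → r ≠ p → u ^ r ^ k = 1 →
    Commute (u ^ r) w → Finite (c2 w u) ∧ Group.IsSolvable (c2 w u)
  f2 : p ≠ 3 → ∀ w t : G, w ^ p = 1 → t ^ p = 1 → Commute ((w * t) ^ p) w →
    Finite (c2 w t) ∧ Group.IsSolvable (c2 w t)

/-- groups without normal subgroups of prime power exponent -/
theorem trivT {p M : ℕ} (hM : SqP M) (hdiv : ∀ s : ℕ, s.Prime → s ∣ M → p ∣ s - 1)
    {G : Type} [Group G] (S : St p M G)
    (hR : ∀ q : ℕ, q.Prime → Rad (qp q (p * M)) G = ⊥) : ∀ x : G, x = 1 := by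
  have hp := S.hp
  have hpM := S.hpM
  have hn0 : p * M ≠ 0 := by
    intro h
    exact S.odd (by rw [h]; exact dvd_zero _)
  have hM0 : M ≠ 0 := fun h => hn0 (by rw [h, mul_zero])
  have hPO : ∀ {H : Type} [Group H] (y : H), (∀ x : H, x ^ M = 1) → PR y → PO p y := by
    rintro H _ y hexp ⟨r, hr, hyr⟩
    by_cases h : r = p
    · subst h
      have hy1 : y = 1 := W629.eq_one_of_coprime hpM hyr (hexp y)
      rw [hy1]
      obtain ⟨r', h1, h2⟩ := Nat.exists_infinite_primes (r + 1)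
      exact ⟨r', h2, by omega, one_pow _⟩
    · exact ⟨r, hr, h, hyr⟩
  -- the subgroup of exponent `M`
  have hradM : Rad M G = ⊥ := by
    have h1 : ∀ x : Rad M G, x = 1 := by
      refine triv M hM ⟨fun h => S.odd (h.trans (dvd_mul_left _ _)),
        fun x => Subtype.ext (rad_pow x.2), ?_⟩
        (rad_step hn0 (dvd_mul_left _ _) S.exp hR (Rad M G) (rad_normal M))
      rintro x y hy
      refine fs_sub _ x y (S.f1 _ _ ?_)
      obtain ⟨r, hr, hrp, hyr⟩ := hPO y (fun x => Subtype.ext (rad_pow x.2)) hy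
      exact ⟨r, hr, hrp, congrArg Subtype.val hyr⟩
    rw [eq_bot_iff]
    intro x hx
    exact congrArg Subtype.val (h1 ⟨x, hx⟩)
  have hS : Sq (p ^ 1 * M) p 1 M G :=
    ⟨hp, le_rfl, hpM, rfl, by rw [pow_one]; exact S.odd, by rw [pow_one]; exact S.exp, S.f1, hradM⟩
  have hqp : qp p (p * M) = p := by
    unfold qp
    have h1 : (p * M).factorization p = 1 := by
      rw [Nat.factorization_mul hp.ne_zero hM0, Finsupp.add_apply,
        hp.factorization, Finsupp.single_eq_same,
        Nat.factorization_eq_zero_of_not_dvd ((Nat.Prime.coprime_iff_not_dvd hp).1 hpM),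
        add_zero]
    rw [h1, pow_one]
  have hRK : ∀ w : G, w ^ p = 1 → ∀ E : Subgroup G, Finite E → Group.IsSolvable E → w ∈ E →
      w ∈ Tw.RK p E := by
    intro w hw E hE hEs hwE
    have h1 : TP p 1 M w := by
      have h2 := tp_of hS (x := w) (by rw [pow_one]; exact hw)
      rwa [Nat.sub_self, pow_zero, pow_one] at h2
    have h2 := rad_fin hS h1 (fun s hs hsp U A => no_arr hS hs hsp
      (hdiv s hs (arr_basic hS hs hsp A).2.1) h1 A) hE hEs hwE
    rw [pow_one] at h2
    exact Tw.mem_RK.2 ⟨hwE, h2⟩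
  have f2 : ∀ w t : G, w ^ p = 1 → t ^ p = 1 → Commute ((w * t) ^ p) w →
      Finite (c2 w t) ∧ Group.IsSolvable (c2 w t) := by
    intro w t hw ht hc
    by_cases h3 : p = 3
    · subst h3
      exact three (Nat.pos_of_ne_zero hn0) S.exp hw ht hc
    · exact S.f2 h3 w t hw ht hc
  have hexp : ∀ x : G, x ^ M = 1 := by
    intro x
    have h1 : (x ^ M) ^ p = 1 := by rw [← pow_mul, mul_comm M p, S.exp]
    have h2 : x ^ M ∈ Rad p G := by
      refine ⟨h1, fun t ht => ?_⟩
      refine core hp hpM hM0 S.exp S.f1c f2 hRK M dvd_rfl ⊥ (x ^ M) t h1 ht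
        (fun z hz => ?_) (fun z hz => ?_) ?_
      · rw [Subgroup.mem_bot.1 hz]
        exact Commute.one_left _
      · rw [Subgroup.mem_bot.1 hz]
        exact Commute.one_left _
      · rw [← pow_mul, S.exp]
        exact one_mem _
    have h3 := hR p hp
    rw [hqp] at h3
    rw [h3] at h2
    exact h2
  refine triv M hM ⟨fun h => S.odd (h.trans (dvd_mul_left _ _)), hexp,
    fun x y hy => S.f1 x y (hPO y hexp hy)⟩ ?_
  intro q hq
  have h1 := rad_step (m := M) hn0 (dvd_mul_left _ _) S.exp hR ⊤ inferInstance q hq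
  rw [eq_bot_iff]
  rintro x ⟨hx, hx'⟩
  have h2 : (⟨x, Subgroup.mem_top x⟩ : (⊤ : Subgroup G)) ∈
      Rad (qp q M) (⊤ : Subgroup G) :=
    ⟨Subtype.ext hx, fun z hz => Subtype.ext (hx' z (congrArg Subtype.val hz))⟩
  rw [h1, Subgroup.mem_bot] at h2
  exact congrArg Subtype.val h2

end Pool.Agent.V5helper30.OT
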