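import Mathlib
import Pool.Agent.V5helper30.OT.Main
import Pool.Agent.V5helper30.OE.Lift

set_option autoImplicit false

/-!
# Primes dividing the exponent once: all universes and local finiteness
-/

namespace Pool.Agent.V5helper30.OT

open Pool.Agent.H32BU Pool.Agent.W629 Pool.Agent.TH69.Mtn Pool.Agent.TH69.Od Pool.Agent.TH69.Og
open Pool.Agent.TH69.Oh Pool.Agent.TH69.Ok Pool.Agent.TH69.Pq Pool.Agent.N6.Pf
open Pool.Agent.N6.Pg (rad_quot)
open Pool.Agent.V5helper30.OP (OPr OPP fs_transfer fs_of_surj c2_one fs_quot opp_cases)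
open Pool.Agent.V5helper30.OQ (PO)
open Pool.Agent.V5helper30.OE (po_map po_cases normal_of small_sub)

universe u v

/-- the quotient of the free Burnside group `B_{2,n}` modulo `x₀ ^ p`, `x₁ ^ p`, `(x₀ x₁) ^ p` -/
abbrev Dq (n p : ℕ) : Type :=
  FreeGroup (Fin 2) ⧸ Subgroup.normalClosure
    ((Set.range fun w : FreeGroup (Fin 2) => w ^ n) ∪
      {FreeGroup.of 0 ^ p, FreeGroup.of 1 ^ p, (FreeGroup.of 0 * FreeGroup.of 1) ^ p})

theorem dq2 {n p : ℕ} {G : Type} [Group G] (hG : ∀ x : G, x ^ n = 1) (a b : G) (ha : a ^ p = 1)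
    (hb : b ^ p = 1) (hab : (a * b) ^ p = 1) :
    ∃ f : Dq n p →* G, f.range = Subgroup.closure {a, b} := by
  let f0 : FreeGroup (Fin 2) →* G := FreeGroup.lift ![a, b]
  have e0 : f0 (FreeGroup.of 0) = a := by simp [f0]
  have e1 : f0 (FreeGroup.of 1) = b := by simp [f0]
  have hker : Subgroup.normalClosure
      ((Set.range fun w : FreeGroup (Fin 2) => w ^ n) ∪
        {FreeGroup.of 0 ^ p, FreeGroup.of 1 ^ p, (FreeGroup.of 0 * FreeGroup.of 1) ^ p}) ≤
      f0.ker := by
    apply Subgroup.normalClosure_le_normal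
    rintro _ (⟨w, rfl⟩ | rfl | rfl | h)
    · rw [SetLike.mem_coe, MonoidHom.mem_ker, map_pow, hG]
    · rw [SetLike.mem_coe, MonoidHom.mem_ker, map_pow, e0, ha]
    · rw [SetLike.mem_coe, MonoidHom.mem_ker, map_pow, e1, hb]
    · rw [Set.mem_singleton_iff.1 h, SetLike.mem_coe, MonoidHom.mem_ker, map_pow, map_mul, e0, e1,
        hab]
  refine ⟨QuotientGroup.lift _ f0 (fun w hw => hker hw), ?_⟩
  have e2 : (QuotientGroup.lift _ f0 (fun w hw => hker hw) : Dq n p →* G).range = f0.range := by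
    ext g
    constructor
    · rintro ⟨x, rfl⟩
      obtain ⟨w, rfl⟩ := QuotientGroup.mk_surjective x
      exact ⟨w, rfl⟩
    · rintro ⟨w, rfl⟩
      exact ⟨QuotientGroup.mk w, rfl⟩
  rw [e2, FreeGroup.range_lift_eq_closure]
  congr 1
  ext g
  constructor
  · rintro ⟨i, rfl⟩
    fin_cases i
    · exact Or.inl rfl
    · exact Or.inr rfl
  · rintro (rfl | h)
    · exact ⟨0, rfl⟩
    · exact ⟨1, (Set.mem_singleton_iff.1 h).symm⟩

theorem dq_exp {n p : ℕ} (x : Dq n p) : x ^ n = 1 := by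
  obtain ⟨w, rfl⟩ := QuotientGroup.mk_surjective x
  rw [← QuotientGroup.mk_pow, QuotientGroup.eq_one_iff]
  exact Subgroup.subset_normalClosure (Or.inl ⟨w, rfl⟩)

theorem dq_finite {n : ℕ} (h : LocFin n) (p : ℕ) : Finite (Dq n p) := by
  have h1 : Finite (Bu 2 n) := x_LFD.2.1 n 2 h
  have hle : Subgroup.normalClosure (Set.range fun w : FreeGroup (Fin 2) => w ^ n) ≤
      (QuotientGroup.mk' (Subgroup.normalClosure
        ((Set.range fun w : FreeGroup (Fin 2) => w ^ n) ∪
          {FreeGroup.of 0 ^ p, FreeGroup.of 1 ^ p,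
            (FreeGroup.of 0 * FreeGroup.of 1) ^ p}))).ker := by
    rw [QuotientGroup.ker_mk']
    exact Subgroup.normalClosure_mono Set.subset_union_left
  refine Finite.of_surjective (QuotientGroup.lift _ (QuotientGroup.mk' (Subgroup.normalClosure
    ((Set.range fun w : FreeGroup (Fin 2) => w ^ n) ∪
      {FreeGroup.of 0 ^ p, FreeGroup.of 1 ^ p, (FreeGroup.of 0 * FreeGroup.of 1) ^ p})))
    (fun w hw => hle hw)) ?_
  intro y
  obtain ⟨w, rfl⟩ := QuotientGroup.mk_surjective y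
  exact ⟨(QuotientGroup.mk w), rfl⟩

/-- two-generator groups with a central cyclic subgroup -/
theorem cent {G : Type} [Group G] {n : ℕ} (hn : n ≠ 0) (hG : ∀ g : G, g ^ n = 1) {x y c : G}
    (hc : c ∈ c2 x y) (hcx : Commute c x) (hcy : Commute c y)
    (h : ∀ (Q : Type) [Group Q] (f : c2 x y →* Q) (a b : Q), (∀ g : Q, g ^ n = 1) →
      f ⟨x, Subgroup.subset_closure (by simp)⟩ = a → f ⟨y, Subgroup.subset_closure (by simp)⟩ = b →
      f ⟨c, hc⟩ = 1 → Finite (Subgroup.closure {a, b}) ∧ Group.IsSolvable (Subgroup.closure {a, b})) :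
    Finite (c2 x y) ∧ Group.IsSolvable (c2 x y) := by
  have hcc : ∀ g ∈ c2 x y, Commute c g := by
    intro g hg
    have h1 : c2 x y ≤ Subgroup.centralizer {c} := by
      unfold c2
      rw [Subgroup.closure_le]
      rintro a (rfl | ha)
      · exact Subgroup.mem_centralizer_singleton_iff.2 hcx.symm.eq
      · rw [Set.mem_singleton_iff.1 ha]
        exact Subgroup.mem_centralizer_singleton_iff.2 hcy.symm.eq
    exact (Tw.mem_cent.1 (h1 hg)).symm
  obtain ⟨N, hNd⟩ : ∃ N : Subgroup (c2 x y), N = Subgroup.zpowers ⟨c, hc⟩ := ⟨_, rfl⟩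
  have hNc : ∀ z ∈ N, ∀ g : c2 x y, g * z = z * g := by
    intro z hz g
    rw [hNd] at hz
    obtain ⟨i, rfl⟩ := Subgroup.mem_zpowers_iff.1 hz
    have h1 : Commute (⟨c, hc⟩ : c2 x y) g := Subtype.ext (hcc g g.2).eq
    exact (h1.zpow_left i).symm.eq
  have hNn : N.Normal := ⟨fun z hz g => by rw [hNc z hz g, mul_inv_cancel_right]; exact hz⟩
  have hcN : (⟨c, hc⟩ : c2 x y) ∈ N := by
    rw [hNd]
    exact Subgroup.mem_zpowers _
  obtain ⟨h1, h2⟩ := h (c2 x y ⧸ N) (QuotientGroup.mk' N) _ _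
    (fun g => by
      obtain ⟨g, rfl⟩ := QuotientGroup.mk_surjective g
      rw [← QuotientGroup.mk_pow]
      have : g ^ n = 1 := Subtype.ext (hG g)
      rw [this]
      rfl) rfl rfl ((QuotientGroup.eq_one_iff _).2 hcN)
  have htop : (⊤ : Subgroup (c2 x y)) = Subgroup.closure
      {⟨x, Subgroup.subset_closure (by simp)⟩, ⟨y, Subgroup.subset_closure (by simp)⟩} := by
    apply Subgroup.map_injective (c2 x y).subtype_injective
    rw [← MonoidHom.range_eq_map, Subgroup.range_subtype, MonoidHom.map_closure, Set.image_pair]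
    rfl
  have htop2 : (⊤ : Subgroup (c2 x y ⧸ N)) = Subgroup.closure
      {QuotientGroup.mk' N ⟨x, Subgroup.subset_closure (by simp)⟩,
        QuotientGroup.mk' N ⟨y, Subgroup.subset_closure (by simp)⟩} := by
    rw [← Set.image_pair, ← MonoidHom.map_closure, ← htop, ← MonoidHom.range_eq_map,
      MonoidHom.range_eq_top.2 (QuotientGroup.mk'_surjective N)]
  rw [← htop2] at h1 h2
  have hf : Finite (c2 x y ⧸ N) :=
    Finite.of_equiv _ (Subgroup.topEquiv (G := c2 x y ⧸ N)).toEquiv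
  have hs : Group.IsSolvable (c2 x y ⧸ N) := Group.isSolvable_of_surjective
    (f := (Subgroup.topEquiv (G := c2 x y ⧸ N)).toMonoidHom)
    (Subgroup.topEquiv (G := c2 x y ⧸ N)).surjective
  have hNf : Finite N := by
    rw [hNd]
    exact Set.finite_coe_iff.2 (finite_zpowers.2 (isOfFinOrder_iff_pow_eq_one.2
      ⟨n, Nat.pos_of_ne_zero hn, Subtype.ext (hG c)⟩))
  have hNs : Group.IsSolvable N := by
    refine Group.isSolvable_of_comm fun a b => Subtype.ext ?_
    exact hNc b b.2 a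
  refine ⟨Finite.of_subgroup_quotient (H := N), ?_⟩
  refine Group.isSolvable_of_ker_le_range N.subtype (QuotientGroup.mk' N) ?_
  rw [QuotientGroup.ker_mk', Subgroup.range_subtype]

/-- the hypotheses on the group, in all universes -/
structure Ht (p M : ℕ) (G : Type u) [Group G] : Prop where
  exp : ∀ x : G, x ^ (p * M) = 1
  f1 : ∀ x y : G, PO p y → Finite (Subgroup.closure {x, y}) ∧
    Group.IsSolvable (Subgroup.closure {x, y})
  f1c : ∀ w u : G, w ^ p = 1 → ∀ r k : ℕ, r.Prime → r ≠ p → u ^ r ^ k = 1 →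
    Commute (u ^ r) w → Finite (Subgroup.closure {w, u}) ∧
      Group.IsSolvable (Subgroup.closure {w, u})
  f2 : p ≠ 3 → ∀ w t : G, w ^ p = 1 → t ^ p = 1 → Commute ((w * t) ^ p) w →
    Finite (Subgroup.closure {w, t}) ∧ Group.IsSolvable (Subgroup.closure {w, t})

theorem Ht.transfer {p M : ℕ} {Q : Type v} {G : Type u} [Group Q] [Group G] (H : Ht p M G)
    (f : Q →* G) (hf : Function.Injective f) : Ht p M Q where
  exp x := hf (by rw [map_pow, map_one]; exact H.exp _)
  f1 x y hy := fs_transfer f hf x y (H.f1 _ _ (po_map f hy))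
  f1c w u hw r k hr hrp hu hc := fs_transfer f hf w u (H.f1c _ _ (by rw [← map_pow, hw, map_one])
    r k hr hrp (by rw [← map_pow, hu, map_one]) (by
      have h1 := hc.map f
      rwa [map_pow] at h1))
  f2 h3 w t hw ht hc := fs_transfer f hf w t (H.f2 h3 _ _ (by rw [← map_pow, hw, map_one])
    (by rw [← map_pow, ht, map_one]) (by
      have h1 := hc.map f
      rwa [map_pow, map_mul] at h1))

/-- normal subgroups of prime power exponent -/
theorem exists_normalT {p M : ℕ} (hp : p.Prime) (hpM : Nat.Coprime p M)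
    (hodd : ¬ 2 ∣ p * M) (C : SqP M) (hdiv : ∀ s : ℕ, s.Prime → s ∣ M → p ∣ s - 1)
    (G : Type u) [Group G] (H : Ht p M G) (hnt : Nontrivial G) :
    ∃ r k : ℕ, r.Prime ∧ r ^ k ∣ p * M ∧ ∃ N : Subgroup G, N.Normal ∧ N ≠ ⊥ ∧
      ∀ x ∈ N, x ^ r ^ k = 1 := by
  refine normal_of G hnt fun hR g => ?_
  obtain ⟨Q, _, φ, hφ, ⟨x, rfl⟩, hRQ⟩ := small_sub G hR g
  have HQ := H.transfer φ hφ
  rw [trivT C hdiv ⟨hp, hpM, hodd, HQ.exp, HQ.f1, HQ.f1c, HQ.f2⟩ hRQ x, map_one]

/-- local finiteness from the quotients of the free Burnside group -/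
theorem locfinT {p M : ℕ} (hp : p.Prime) (hpM : Nat.Coprime p M)
    (hodd : ¬ 2 ∣ p * M) (C : SqP M) (hdiv : ∀ s : ℕ, s.Prime → s ∣ M → p ∣ s - 1)
    (hL : ∀ s : ℕ, s.Prime → LocFin (qp s (p * M)))
    (c1 : ∀ s : ℕ, s.Prime → s ∣ M → Finite (Bq (p * M) s) ∧ Group.IsSolvable (Bq (p * M) s))
    (c3 : p ≠ 3 → Finite (Dq (p * M) p) ∧ Group.IsSolvable (Dq (p * M) p)) :
    LocFin (p * M) := by
  intro G _ hG
  obtain ⟨N, hN, hNL, hNmax⟩ := exists_radical G
  refine x_SCH G N hNL ?_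
  have hn : p * M ≠ 0 := by
    intro h
    rw [h] at hodd
    exact hodd (dvd_zero _)
  have hQ := exp_quot hG N
  have hsM : ∀ s : ℕ, s.Prime → s ≠ p → s ∣ p * M → s ∣ M := fun s hs hsp hsn =>
    Nat.Coprime.dvd_of_dvd_mul_left ((Nat.coprime_primes hs hp).2 hsp) hsn
  have h1 : ∀ g : G ⧸ N, g = 1 := by
    refine trivT C hdiv ⟨hp, hpM, hodd, hQ, fun x y hy => ?_, fun w u hw r k hr hrp hu hc => ?_,
      fun h3 w t hw ht hc => ?_⟩ fun s hs => rad_quot (hL s hs) N hNL hNmax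
    · rcases po_cases hQ hy with rfl | ⟨s, hs, hs2, hsn, hys⟩
      · exact c2_one hn (hQ x)
      · obtain ⟨f, hf⟩ := bq2 hQ x y hys
        exact fs_of_surj (c1 s hs (hsM s hs hs2 hsn)) f hf
    · by_cases hrn : r ∣ p * M
      · refine cent hn hQ (c := u ^ r) (pow_mem (Subgroup.subset_closure (by simp)) r) hc
          ((Commute.refl u).pow_left r) ?_
        intro Q _ f a b hQn ha hb hc
        have h2 : b ^ r = 1 := by
          rw [← hb, ← map_pow]
          exact hc
        obtain ⟨f', hf'⟩ := bq2 hQn a b h2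
        exact fs_of_surj (c1 r hr (hsM r hr hrp hrn)) f' hf'
      · have h2 : u = 1 := W629.eq_one_of_coprime (a := r ^ k) (b := p * M)
          (Nat.Coprime.pow_left _ ((Nat.Prime.coprime_iff_not_dvd hr).2 hrn)) hu (hQ u)
        rw [h2]
        exact c2_one hn (hQ w)
    · refine cent hn hQ (c := (w * t) ^ p) (pow_mem (mul_mem (Subgroup.subset_closure (by simp))
        (Subgroup.subset_closure (by simp))) p) hc ?_ ?_
      · have h2 : Commute ((w * t) ^ p) (w * t) := (Commute.refl (w * t)).pow_left p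
        have h3 := hc.inv_right.mul_right h2
        rwa [inv_mul_cancel_left] at h3
      · intro Q _ f a b hQn ha hb hc
        have h2 : a ^ p = 1 := by
          rw [← ha, ← map_pow]
          have : (⟨w, Subgroup.subset_closure (by simp)⟩ : H32BU.c2 w t) ^ p = 1 :=
            Subtype.ext hw
          rw [this, map_one]
        have h3' : b ^ p = 1 := by
          rw [← hb, ← map_pow]
          have : (⟨t, Subgroup.subset_closure (by simp)⟩ : H32BU.c2 w t) ^ p = 1 :=
            Subtype.ext ht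
          rw [this, map_one]
        have h4 : (a * b) ^ p = 1 := by
          rw [← ha, ← hb, ← map_mul, ← map_pow]
          exact hc
        obtain ⟨f', hf'⟩ := dq2 hQn a b h2 h3' h4
        exact fs_of_surj (c3 h3) f' hf'
  intro S
  have : Subsingleton (G ⧸ N) := ⟨fun a b => by rw [h1 a, h1 b]⟩
  infer_instance

/-- local finiteness of groups of exponent `3 * M` -/
theorem lfT {M : ℕ} (hpM : Nat.Coprime 3 M)
    (hodd : ¬ 2 ∣ 3 * M) (C : SqP M) (hdiv : ∀ s : ℕ, s.Prime → s ∣ M → 3 ∣ s - 1)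
    (hL : ∀ s : ℕ, s.Prime → LocFin (qp s (3 * M))) (G : Type) [Group G]
    (hG : ∀ x : G, x ^ (3 * M) = 1)
    (h : ∀ x y : G, ∀ r k : ℕ, r.Prime → r ≠ 3 → y ^ r ^ k = 1 →
      Finite (c2 x y) ∧ Group.IsSolvable (c2 x y)) : LF G := by
  obtain ⟨N, hN, hNL, hNmax⟩ := exists_radical G
  refine x_SCH G N hNL ?_
  have hn : 3 * M ≠ 0 := by
    intro h
    rw [h] at hodd
    exact hodd (dvd_zero _)
  have hfs : ∀ x y : G ⧸ N, ∀ r k : ℕ, r.Prime → r ≠ 3 → y ^ r ^ k = 1 →
      Finite (c2 x y) ∧ Group.IsSolvable (c2 x y) := by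
    intro x y r k hr hr3 hy
    obtain ⟨x, rfl⟩ := QuotientGroup.mk_surjective x
    obtain ⟨y', hy', rfl⟩ := lift_pp (QuotientGroup.mk' N) (QuotientGroup.mk'_surjective N) hn hG
      hr hy
    exact fs_quot N (h x y' r _ hr hr3 hy')
  have h1 : ∀ g : G ⧸ N, g = 1 := by
    refine trivT C hdiv ⟨Nat.prime_three, hpM, hodd, exp_quot hG N, fun x y hy => ?_,
      fun w u hw r k hr hrp hu hc => hfs w u r k hr hrp hu,
      fun h3 => absurd rfl h3⟩ fun s hs => rad_quot (hL s hs) N hNL hNmax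
    obtain ⟨s, hs, hs3, hys⟩ := hy
    exact hfs x y s 1 hs hs3 (by rw [pow_one]; exact hys)
  intro S
  have : Subsingleton (G ⧸ N) := ⟨fun a b => by rw [h1 a, h1 b]⟩
  infer_instance

/-- local finiteness of groups of exponent `3 * M`, all universes -/
theorem lfT_u {M : ℕ} (hpM : Nat.Coprime 3 M)
    (hodd : ¬ 2 ∣ 3 * M) (C : SqP M) (hdiv : ∀ s : ℕ, s.Prime → s ∣ M → 3 ∣ s - 1)
    (hL : ∀ s : ℕ, s.Prime → LocFin (qp s (3 * M))) (G : Type u) [Group G]
    (hG : ∀ x : G, x ^ (3 * M) = 1)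
    (h : ∀ x y : G, ∀ r k : ℕ, r.Prime → r ≠ 3 → y ^ r ^ k = 1 →
      Finite (Subgroup.closure {x, y}) ∧ Group.IsSolvable (Subgroup.closure {x, y}))
    (S : Set G) (hS : S.Finite) : Finite (Subgroup.closure S) :=
  finite_closure_u S hS fun Q _ f hf => lfT hpM hodd C hdiv hL Q
    (fun x => hf (by rw [map_pow, map_one]; exact hG _))
    (fun x y r k hr hr3 hy => fs_transfer f hf x y (h _ _ r k hr hr3
      (by rw [← map_pow, hy, map_one])))

end Pool.Agent.V5helper30.OT
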